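import Mathlib

/-!
# The counting lemma for cliques in uniform tuples
-/

set_option autoImplicit false

namespace Pool.Agent.X286.Cr

open Finset

theorem bad_card {α : Type} [DecidableEq α] (G : SimpleGraph α) [DecidableRel G.Adj]
    (η d : ℝ) (hη : 0 < η) (U V S : Finset α) (hun : G.IsUniform η U V)
    (hd : d ≤ G.edgeDensity U V) (hS : S ⊆ V) (hSc : η * (#V : ℝ) ≤ #S) (hSne : 0 < #S) :
    ((U.filter (fun a => (#(S.filter (fun v => G.Adj a v)) : ℝ) < (d - η) * #S)).card : ℝ) ≤
      η * #U := by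
  by_contra hcon
  push Not at hcon
  obtain ⟨T, hT⟩ : ∃ T, T = U.filter
      (fun a => (#(S.filter (fun v => G.Adj a v)) : ℝ) < (d - η) * #S) := ⟨_, rfl⟩
  rw [← hT] at hcon
  have hTU : T ⊆ U := hT ▸ filter_subset _ _
  have hT0 : 0 < (#T : ℝ) := lt_of_le_of_lt (by positivity) hcon
  have hS0 : 0 < (#S : ℝ) := by exact_mod_cast hSne
  have h1 := hun hTU hS (by linarith) (by linarith)
  have h2 : (G.edgeDensity T S : ℝ) ≤ d - η := by
    rw [SimpleGraph.edgeDensity_def]
    push_cast
    rw [div_le_iff₀ (by positivity)]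
    have h3 : (#(G.interedges T S) : ℝ) = ∑ a ∈ T, (#(S.filter (fun v => G.Adj a v)) : ℝ) := by
      rw [SimpleGraph.interedges_def, card_filter, sum_product]
      push_cast
      apply sum_congr rfl
      intro a _
      rw [card_filter]
      push_cast
      rfl
    rw [h3]
    calc ∑ a ∈ T, (#(S.filter (fun v => G.Adj a v)) : ℝ) ≤ ∑ a ∈ T, (d - η) * #S :=
          sum_le_sum (fun a ha => by rw [hT, mem_filter] at ha; exact ha.2.le)
      _ = (d - η) * (#T * #S) := by rw [sum_const, nsmul_eq_mul]; ring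
  have h4 := (abs_lt.1 h1).1
  linarith

/-- ordered cliques with given ranges -/
def tup {α : Type} [Fintype α] [DecidableEq α] (G : SimpleGraph α) [DecidableRel G.Adj] (q : ℕ)
    (W : Fin q → Finset α) : Finset (Fin q → α) :=
  univ.filter (fun f => (∀ i, f i ∈ W i) ∧ ∀ i j, i < j → G.Adj (f i) (f j))

theorem mem_tup {α : Type} [Fintype α] [DecidableEq α] {G : SimpleGraph α} [DecidableRel G.Adj]
    {q : ℕ} {W : Fin q → Finset α} {f : Fin q → α} :
    f ∈ tup G q W ↔ (∀ i, f i ∈ W i) ∧ ∀ i j, i < j → G.Adj (f i) (f j) := by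
  simp [tup]

/-- first vertex, then the rest -/
theorem tup_succ {α : Type} [Fintype α] [DecidableEq α] (G : SimpleGraph α) [DecidableRel G.Adj]
    (q : ℕ) (W : Fin (q + 1) → Finset α) (g : Finset α) (hg : g ⊆ W 0) :
    ∑ v ∈ g, #(tup G q (fun i => (W i.succ).filter (fun w => G.Adj v w))) ≤
      #(tup G (q + 1) W) := by
  rw [← card_sigma]
  apply card_le_card_of_injOn (fun x => (Fin.cons x.1 x.2 : Fin (q + 1) → α))
  · rintro ⟨v, f⟩ h
    simp only [coe_sigma, Set.mem_sigma_iff, mem_coe] at h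
    obtain ⟨hv, hf⟩ := h
    rw [mem_tup] at hf
    rw [mem_coe, mem_tup]
    constructor
    · intro i
      refine Fin.cases ?_ (fun j => ?_) i
      · simpa using hg hv
      · simpa using (mem_filter.1 (hf.1 j)).1
    · intro i j hij
      induction i using Fin.cases with
      | zero =>
        induction j using Fin.cases with
        | zero => exact absurd hij (lt_irrefl _)
        | succ j => simpa using (mem_filter.1 (hf.1 j)).2
      | succ i =>
        induction j using Fin.cases with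
        | zero => exact absurd hij (Fin.not_lt_zero _)
        | succ j => simpa using hf.2 i j (Fin.succ_lt_succ_iff.1 hij)
  · rintro ⟨v, f⟩ _ ⟨v', f'⟩ _ h
    have h' : (Fin.cons v f : Fin (q + 1) → α) = Fin.cons v' f' := h
    rw [Fin.cons_inj] at h'
    obtain ⟨rfl, rfl⟩ := h'
    rfl

theorem count (q : ℕ) : ∀ (d a : ℝ), 0 < d → d ≤ 1 → 0 < a → a ≤ 1 →
    ∃ η₀ : ℝ, 0 < η₀ ∧ ∃ c : ℝ, 0 < c ∧ ∀ η : ℝ, 0 < η → η ≤ η₀ →
      ∀ (α : Type) [Fintype α] [DecidableEq α] (G : SimpleGraph α) [DecidableRel G.Adj]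
        (V W : Fin q → Finset α), (∀ i, W i ⊆ V i) → (∀ i, a * #(V i) ≤ #(W i)) →
        (∀ i, (V i).Nonempty) → (∀ i j, i ≠ j → G.IsUniform η (V i) (V j)) →
        (∀ i j, i ≠ j → d ≤ G.edgeDensity (V i) (V j)) →
        c * ∏ i, (#(V i) : ℝ) ≤ #(tup G q W) := by
  induction q with
  | zero =>
    intro d a _ _ _ _
    refine ⟨1, one_pos, 1, one_pos, ?_⟩
    intro η _ _ α _ _ G _ V W _ _ _ _ _
    have h : tup G 0 W = {Fin.elim0} := by
      ext f
      rw [mem_tup, mem_singleton]
      constructor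
      · intro _
        exact Subsingleton.elim _ _
      · intro _
        exact ⟨fun i => i.elim0, fun i => i.elim0⟩
    rw [h]
    simp
  | succ q ih =>
    intro d a hd hd1 ha ha1
    obtain ⟨η₁, hη₁, c₁, hc₁, H⟩ := ih d (a * (d / 2)) hd hd1 (by positivity) (by nlinarith)
    refine ⟨min η₁ (min (d / 2) (a / (2 * (q + 1)))), by positivity, a / 2 * c₁, by positivity, ?_⟩
    intro η hη hηle α _ _ G _ V W hWV hWc hV hun hden
    have h1 : η ≤ η₁ := hηle.trans (min_le_left _ _)
    have h2 : η ≤ d / 2 := hηle.trans ((min_le_right _ _).trans (min_le_left _ _))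
    have h3 : η ≤ a / (2 * (q + 1)) := hηle.trans ((min_le_right _ _).trans (min_le_right _ _))
    have h4 : η * (2 * (q + 1)) ≤ a := by
      rwa [le_div_iff₀ (by positivity)] at h3
    have hq0 : (0 : ℝ) ≤ q := Nat.cast_nonneg _
    have h5 : η ≤ a := by nlinarith
    obtain ⟨bad, hbad⟩ : ∃ bad : Fin q → Finset α, bad = fun i => (V 0).filter
      (fun x => (#((W i.succ).filter (fun v => G.Adj x v)) : ℝ) < (d - η) * #(W i.succ)) :=
      ⟨_, rfl⟩
    have hVpos : ∀ i, (0 : ℝ) < #(V i) := fun i => by exact_mod_cast card_pos.2 (hV i)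
    have hWpos : ∀ i, 0 < #(W i) := fun i => by
      have h6 : (0 : ℝ) < #(W i) := lt_of_lt_of_le (mul_pos ha (hVpos i)) (hWc i)
      exact_mod_cast h6
    have hbc : ∀ i, (#(bad i) : ℝ) ≤ η * #(V 0) := by
      intro i
      rw [hbad]
      apply bad_card G η d hη (V 0) (V i.succ) (W i.succ)
        (hun _ _ (Fin.succ_ne_zero i).symm) (hden _ _ (Fin.succ_ne_zero i).symm) (hWV _)
      · exact (mul_le_mul_of_nonneg_right h5 (hVpos _).le).trans (hWc _)
      · exact hWpos _
    obtain ⟨g, hg⟩ : ∃ g : Finset α, g = W 0 \ univ.biUnion bad := ⟨_, rfl⟩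
    have hgc : a / 2 * (#(V 0) : ℝ) ≤ #g := by
      have h6 : (#(univ.biUnion bad) : ℝ) ≤ q * (η * #(V 0)) := by
        have h7 : #(univ.biUnion bad) ≤ ∑ i, #(bad i) := card_biUnion_le
        calc (#(univ.biUnion bad) : ℝ) ≤ ∑ i, (#(bad i) : ℝ) := by exact_mod_cast h7
          _ ≤ ∑ _i : Fin q, η * (#(V 0) : ℝ) := sum_le_sum (fun i _ => hbc i)
          _ = q * (η * #(V 0)) := by simp
      have h7 : #(W 0) ≤ #g + #(univ.biUnion bad) := by
        rw [hg]
        have := card_le_card_sdiff_add_card (s := W 0) (t := univ.biUnion bad)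
        omega
      have h8 : (#(W 0) : ℝ) ≤ #g + #(univ.biUnion bad) := by exact_mod_cast h7
      have h9 := hWc 0
      have h10 : q * (η * (#(V 0) : ℝ)) ≤ a / 2 * #(V 0) := by
        have : q * η ≤ a / 2 := by nlinarith
        calc q * (η * (#(V 0) : ℝ)) = (q * η) * #(V 0) := by ring
          _ ≤ _ := mul_le_mul_of_nonneg_right this (hVpos 0).le
      linarith
    have hgW : g ⊆ W 0 := by rw [hg]; exact sdiff_subset
    have hmain := tup_succ G q W g hgW
    have hterm : ∀ v ∈ g, c₁ * ∏ i : Fin q, (#(V i.succ) : ℝ) ≤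
        #(tup G q (fun i => (W i.succ).filter (fun w => G.Adj v w))) := by
      intro v hv
      apply H η hη h1 α G (fun i => V i.succ)
      · intro i
        exact (filter_subset _ _).trans (hWV _)
      · intro i
        have h6 : v ∉ bad i := by
          rw [hg, mem_sdiff] at hv
          intro hc
          exact hv.2 (mem_biUnion.2 ⟨i, mem_univ _, hc⟩)
        have h7 : v ∈ V 0 := hWV 0 (hgW hv)
        rw [hbad, mem_filter, not_and, not_lt] at h6
        have h8 := h6 h7
        have h9 := hWc i.succ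
        have h10 : (0 : ℝ) < #(W i.succ) := by exact_mod_cast hWpos i.succ
        calc a * (d / 2) * (#(V i.succ) : ℝ) = (d / 2) * (a * #(V i.succ)) := by ring
          _ ≤ (d / 2) * #(W i.succ) := mul_le_mul_of_nonneg_left h9 (by positivity)
          _ ≤ (d - η) * #(W i.succ) := mul_le_mul_of_nonneg_right (by linarith) h10.le
          _ ≤ _ := h8
      · exact fun i => hV _
      · exact fun i j hij => hun _ _ (fun h => hij (Fin.succ_injective _ h))
      · exact fun i j hij => hden _ _ (fun h => hij (Fin.succ_injective _ h))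
    have hP : (0 : ℝ) ≤ ∏ i : Fin q, (#(V i.succ) : ℝ) :=
      prod_nonneg (fun i _ => (hVpos _).le)
    calc a / 2 * c₁ * ∏ i, (#(V i) : ℝ)
        = (a / 2 * #(V 0)) * (c₁ * ∏ i : Fin q, (#(V i.succ) : ℝ)) := by
          rw [Fin.prod_univ_succ]; ring
      _ ≤ #g * (c₁ * ∏ i : Fin q, (#(V i.succ) : ℝ)) :=
          mul_le_mul_of_nonneg_right hgc (by positivity)
      _ = ∑ _v ∈ g, (c₁ * ∏ i : Fin q, (#(V i.succ) : ℝ)) := by
          rw [sum_const, nsmul_eq_mul]
      _ ≤ ∑ v ∈ g, (#(tup G q (fun i => (W i.succ).filter (fun w => G.Adj v w))) : ℝ) :=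
          sum_le_sum hterm
      _ ≤ _ := by exact_mod_cast hmain

end Pool.Agent.X286.Cr
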