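import Mathlib

/-!
# Cliques lost by deleting vertices of small degree and edges; adding disjoint edges
-/

set_option autoImplicit false

namespace Pool.Agent.X286.Cr

open Finset

open Classical in
/-- cliques outside of the induced graph -/
theorem low {V : Type} [Fintype V] (G : SimpleGraph V) (A : Finset V) (s : ℕ) :
    #(G.cliqueFinset s) ≤
      #((G.comap (Subtype.val : {v // v ∈ A} → V)).cliqueFinset s) +
        ∑ v ∈ Aᶜ, (G.degree v) ^ (s - 1) := by
  have h1 : #((G.cliqueFinset s).filter (fun t => t ⊆ A)) ≤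
      #((G.comap (Subtype.val : {v // v ∈ A} → V)).cliqueFinset s) := by
    apply card_le_card_of_injOn (fun t => t.subtype (· ∈ A))
    · intro t ht
      rw [mem_coe, mem_filter, SimpleGraph.mem_cliqueFinset_iff, SimpleGraph.isNClique_iff] at ht
      obtain ⟨⟨hcl, hc⟩, hA⟩ := ht
      rw [mem_coe, SimpleGraph.mem_cliqueFinset_iff, SimpleGraph.isNClique_iff]
      constructor
      · intro a ha b hb hab
        rw [mem_coe, mem_subtype] at ha hb
        exact hcl ha hb (fun h => hab (Subtype.ext h))
      · rw [card_subtype, filter_true_of_mem (fun x hx => hA hx), hc]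
    · intro t ht t' ht' h
      rw [mem_coe, mem_filter] at ht ht'
      have h' : t.subtype (· ∈ A) = t'.subtype (· ∈ A) := h
      ext x
      constructor
      · intro hx
        have h2 : (⟨x, ht.2 hx⟩ : {v // v ∈ A}) ∈ t.subtype (· ∈ A) := mem_subtype.2 hx
        rw [h'] at h2
        exact mem_subtype.1 h2
      · intro hx
        have h2 : (⟨x, ht'.2 hx⟩ : {v // v ∈ A}) ∈ t'.subtype (· ∈ A) := mem_subtype.2 hx
        rw [← h'] at h2
        exact mem_subtype.1 h2
  have h2 : #((G.cliqueFinset s).filter (fun t => ¬ t ⊆ A)) ≤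
      ∑ v ∈ Aᶜ, (G.degree v) ^ (s - 1) := by
    have hsub : (G.cliqueFinset s).filter (fun t => ¬ t ⊆ A) ⊆
        Aᶜ.biUnion (fun v => (G.cliqueFinset s).filter (fun t => v ∈ t)) := by
      intro t ht
      rw [mem_filter, not_subset] at ht
      obtain ⟨ht, v, hv, hvA⟩ := ht
      rw [mem_biUnion]
      exact ⟨v, mem_compl.2 hvA, mem_filter.2 ⟨ht, hv⟩⟩
    refine (card_le_card hsub).trans (card_biUnion_le.trans (sum_le_sum fun v _ => ?_))
    have h3 : #((G.cliqueFinset s).filter (fun t => v ∈ t)) ≤
        #(powersetCard (s - 1) (G.neighborFinset v)) := by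
      apply card_le_card_of_injOn (fun t => t.erase v)
      · intro t ht
        rw [mem_coe, mem_filter, SimpleGraph.mem_cliqueFinset_iff, SimpleGraph.isNClique_iff] at ht
        obtain ⟨⟨hcl, hc⟩, hv⟩ := ht
        rw [mem_coe, mem_powersetCard]
        constructor
        · intro w hw
          rw [mem_erase] at hw
          rw [SimpleGraph.mem_neighborFinset]
          exact hcl hv hw.2 hw.1.symm
        · rw [card_erase_of_mem hv, hc]
      · intro t ht t' ht' h
        rw [mem_coe, mem_filter] at ht ht'
        have h' : t.erase v = t'.erase v := h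
        rw [← insert_erase ht.2, h', insert_erase ht'.2]
    refine h3.trans ?_
    rw [card_powersetCard, SimpleGraph.card_neighborFinset_eq_degree]
    exact Nat.choose_le_pow _ _
  have h3 := card_filter_add_card_filter_not (s := G.cliqueFinset s) (fun t => t ⊆ A)
  omega

open Classical in
/-- cliques lost by deleting edges -/
theorem lost {α : Type} [Fintype α] (G H : SimpleGraph α) (s : ℕ) :
    #(G.cliqueFinset (s + 2)) ≤ #(H.cliqueFinset (s + 2)) +
      #(univ.filter fun p : α × α => G.Adj p.1 p.2 ∧ ¬ H.Adj p.1 p.2) *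
        (Fintype.card α) ^ s := by
  obtain ⟨L, hL⟩ : ∃ L, L = univ.filter fun p : α × α => G.Adj p.1 p.2 ∧ ¬ H.Adj p.1 p.2 :=
    ⟨_, rfl⟩
  rw [← hL]
  have hsub : G.cliqueFinset (s + 2) ⊆ H.cliqueFinset (s + 2) ∪
      L.biUnion (fun p => univ.filter (fun t : Finset α => #t = s + 2 ∧ p.1 ∈ t ∧ p.2 ∈ t)) := by
    intro t ht
    rw [SimpleGraph.mem_cliqueFinset_iff, SimpleGraph.isNClique_iff] at ht
    rw [mem_union]
    by_cases h : H.IsClique t
    · left
      rw [SimpleGraph.mem_cliqueFinset_iff, SimpleGraph.isNClique_iff]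
      exact ⟨h, ht.2⟩
    · right
      rw [SimpleGraph.isClique_iff, Set.Pairwise] at h
      push Not at h
      obtain ⟨a, ha, b, hb, hab, hH⟩ := h
      rw [mem_biUnion]
      refine ⟨(a, b), ?_, ?_⟩
      · rw [hL, mem_filter]
        exact ⟨mem_univ _, ht.1 ha hb hab, hH⟩
      · rw [mem_filter]
        exact ⟨mem_univ _, ht.2, ha, hb⟩
  have hterm : ∀ p ∈ L, #(univ.filter (fun t : Finset α => #t = s + 2 ∧ p.1 ∈ t ∧ p.2 ∈ t)) ≤
      (Fintype.card α) ^ s := by
    intro p hp
    rw [hL, mem_filter] at hp
    have hne : p.1 ≠ p.2 := hp.2.1.ne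
    have h3 : #(univ.filter (fun t : Finset α => #t = s + 2 ∧ p.1 ∈ t ∧ p.2 ∈ t)) ≤
        #(powersetCard s (univ : Finset α)) := by
      apply card_le_card_of_injOn (fun t => (t.erase p.1).erase p.2)
      · intro t ht
        rw [mem_coe, mem_filter] at ht
        obtain ⟨_, hc, h1, h2⟩ := ht
        rw [mem_coe, mem_powersetCard]
        refine ⟨subset_univ _, ?_⟩
        rw [card_erase_of_mem (mem_erase.2 ⟨hne.symm, h2⟩), card_erase_of_mem h1, hc]
        omega
      · intro t ht t' ht' h
        rw [mem_coe, mem_filter] at ht ht'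
        obtain ⟨_, _, h1, h2⟩ := ht
        obtain ⟨_, _, h1', h2'⟩ := ht'
        have h' : (t.erase p.1).erase p.2 = (t'.erase p.1).erase p.2 := h
        have h3 : t.erase p.1 = t'.erase p.1 := by
          rw [← insert_erase (mem_erase.2 ⟨hne.symm, h2⟩), h',
            insert_erase (mem_erase.2 ⟨hne.symm, h2'⟩)]
        rw [← insert_erase h1, h3, insert_erase h1']
    refine h3.trans ?_
    rw [card_powersetCard, card_univ]
    exact Nat.choose_le_pow _ _
  calc #(G.cliqueFinset (s + 2)) ≤ _ := card_le_card hsub
    _ ≤ #(H.cliqueFinset (s + 2)) + #(L.biUnion (fun p => univ.filter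
          (fun t : Finset α => #t = s + 2 ∧ p.1 ∈ t ∧ p.2 ∈ t))) := card_union_le _ _
    _ ≤ #(H.cliqueFinset (s + 2)) + ∑ p ∈ L, #(univ.filter
          (fun t : Finset α => #t = s + 2 ∧ p.1 ∈ t ∧ p.2 ∈ t)) := by
        gcongr
        exact card_biUnion_le
    _ ≤ #(H.cliqueFinset (s + 2)) + ∑ _p ∈ L, (Fintype.card α) ^ s := by
        gcongr with p hp
        exact hterm p hp
    _ = _ := by rw [sum_const, smul_eq_mul]

open Classical in
theorem comap_clique {V : Type} [Fintype V] (G : SimpleGraph V) (A : Finset V) (q : ℕ) :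
    #((G.comap (Subtype.val : {v // v ∈ A} → V)).cliqueFinset q) ≤ #(G.cliqueFinset q) := by
  apply card_le_card_of_injOn (fun t => t.map (Function.Embedding.subtype _))
  · intro t ht
    rw [mem_coe, SimpleGraph.mem_cliqueFinset_iff, SimpleGraph.isNClique_iff] at ht
    obtain ⟨hcl, hc⟩ := ht
    rw [mem_coe, SimpleGraph.mem_cliqueFinset_iff, SimpleGraph.isNClique_iff]
    constructor
    · intro a ha b hb hab
      rw [mem_coe, mem_map] at ha hb
      obtain ⟨a, ha, rfl⟩ := ha
      obtain ⟨b, hb, rfl⟩ := hb
      exact hcl ha hb (fun h => hab (by rw [h]))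
    · rw [card_map, hc]
  · intro t _ t' _ h
    exact map_injective _ h

theorem comap_edges {V : Type} [Finite V] (G : SimpleGraph V) (A : Finset V) :
    (G.comap (Subtype.val : {v // v ∈ A} → V)).edgeSet.ncard ≤ G.edgeSet.ncard := by
  have hinj : Function.Injective (Sym2.map (Subtype.val : {v // v ∈ A} → V)) :=
    Sym2.map.injective Subtype.val_injective
  rw [← Set.ncard_image_of_injective _ hinj]
  apply Set.ncard_le_ncard _ (Set.toFinite _)
  rintro _ ⟨e, he, rfl⟩
  induction e with
  | _ a b =>
    rw [SimpleGraph.mem_edgeSet, SimpleGraph.comap_adj] at he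
    rw [Sym2.map_mk, SimpleGraph.mem_edgeSet]
    exact he

/-- the disjoint union with `k` independent edges -/
def addE {V : Type} (H : SimpleGraph V) (k : ℕ) : SimpleGraph (V ⊕ (Fin k × Bool)) where
  Adj x y :=
    match x, y with
    | Sum.inl a, Sum.inl b => H.Adj a b
    | Sum.inr p, Sum.inr r => p.1 = r.1 ∧ p.2 ≠ r.2
    | _, _ => False
  symm := by
    constructor
    rintro (a | p) (b | r) h
    · exact H.adj_symm h
    · exact h
    · exact h
    · exact ⟨h.1.symm, h.2.symm⟩
  loopless := by
    constructor
    rintro (a | p) h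
    · exact H.loopless.irrefl a h
    · exact h.2 rfl

theorem addE_edges {V : Type} [Finite V] (H : SimpleGraph V) (k : ℕ) :
    (addE H k).edgeSet.ncard = H.edgeSet.ncard + k := by
  have h1 : (addE H k).edgeSet = (Sym2.map (Sum.inl : V → V ⊕ (Fin k × Bool))) '' H.edgeSet ∪
      Set.range (fun i : Fin k => (s(Sum.inr (i, false), Sum.inr (i, true)) :
        Sym2 (V ⊕ (Fin k × Bool)))) := by
    ext e
    induction e with
    | _ x y =>
      constructor
      · intro h
        rw [SimpleGraph.mem_edgeSet] at h
        rcases x with a | ⟨i, x⟩ <;> rcases y with b | ⟨j, y⟩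
        · left
          exact ⟨s(a, b), h, rfl⟩
        · exact h.elim
        · exact h.elim
        · right
          obtain ⟨h1, h2⟩ := h
          simp only at h1 h2
          subst h1
          refine ⟨i, ?_⟩
          cases x <;> cases y
          · exact absurd rfl h2
          · rfl
          · exact Sym2.eq_swap
          · exact absurd rfl h2
      · rintro (⟨e, he, h⟩ | ⟨i, h⟩)
        · rw [← h]
          induction e with
          | _ a b => exact he
        · rw [← h]
          exact ⟨rfl, by simp⟩
  rw [h1, Set.ncard_union_eq _ (Set.toFinite _) (Set.toFinite _),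
    Set.ncard_image_of_injective _ (Sym2.map.injective Sum.inl_injective)]
  · congr 1
    have hinj : Function.Injective (fun i : Fin k => (s(Sum.inr (i, false), Sum.inr (i, true)) :
        Sym2 (V ⊕ (Fin k × Bool)))) := by
      intro i j h
      simp only [Sym2.eq_iff, Sum.inr.injEq, Prod.mk.injEq] at h
      rcases h with h | h
      · exact h.1.1
      · exact h.1.1
    rw [← Set.image_univ, Set.ncard_image_of_injective _ hinj, Set.ncard_univ, Nat.card_eq_fintype_card,
      Fintype.card_fin]
  · rw [Set.disjoint_left]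
    rintro _ ⟨e, he, rfl⟩ ⟨i, h⟩
    induction e with
    | _ a b =>
      rw [Sym2.map_mk] at h
      simp only [Sym2.eq_iff] at h
      rcases h with h | h
      · exact absurd h.1 (by simp)
      · exact absurd h.1 (by simp)

theorem addE_free {V : Type} (H : SimpleGraph V) (k q : ℕ) (hq : 3 ≤ q) (hH : H.CliqueFree q) :
    (addE H k).CliqueFree q := by
  classical
  intro t ht
  obtain ⟨hcl, hc⟩ := (SimpleGraph.isNClique_iff _).1 ht
  by_cases h : ∃ a, Sum.inl a ∈ t
  · obtain ⟨a, ha⟩ := h
    have hall : ∀ x ∈ t, ∃ b, x = Sum.inl b := by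
      intro x hx
      rcases x with b | p
      · exact ⟨b, rfl⟩
      · exact (hcl ha hx (by simp)).elim
    apply hH (t.preimage Sum.inl Sum.inl_injective.injOn)
    rw [SimpleGraph.isNClique_iff]
    constructor
    · intro x hx y hy hxy
      rw [mem_coe, mem_preimage] at hx hy
      exact hcl hx hy (fun h => hxy (Sum.inl_injective h))
    · rw [← hc]
      have himg : (t.preimage Sum.inl Sum.inl_injective.injOn).image Sum.inl = t := by
        rw [image_preimage, filter_true_of_mem]
        intro x hx
        obtain ⟨b, rfl⟩ := hall x hx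
        exact ⟨b, rfl⟩
      calc _ = #((t.preimage Sum.inl Sum.inl_injective.injOn).image
            (Sum.inl : V → V ⊕ (Fin k × Bool))) :=
            (card_image_of_injective _ Sum.inl_injective).symm
        _ = #t := by rw [himg]
  · push Not at h
    have hne : t.Nonempty := by
      rw [← card_pos]; omega
    obtain ⟨x, hx⟩ := hne
    rcases x with a | ⟨i, x⟩
    · exact h a hx
    · have hsub : t ⊆ {Sum.inr (i, false), Sum.inr (i, true)} := by
        intro y hy
        rcases y with b | ⟨j, y⟩
        · exact absurd hy (h b)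
        · have hij : i = j := by
            by_cases hxy : (Sum.inr (i, x) : V ⊕ (Fin k × Bool)) = Sum.inr (j, y)
            · simp only [Sum.inr.injEq, Prod.mk.injEq] at hxy
              exact hxy.1
            · exact (hcl hx hy hxy).1
          subst hij
          cases y <;> simp
      have := (card_le_card hsub).trans card_le_two
      omega

end Pool.Agent.X286.Cr
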