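import Pool.Agent.X286.Cr.Count

/-!
# The clique removal lemma
-/

set_option autoImplicit false

namespace Pool.Agent.X286.Cr

open Finset

section red
variable {α : Type} [Fintype α] [DecidableEq α]

/-- the reduced graph -/
def red (G : SimpleGraph α) [DecidableRel G.Adj] (P : Finpartition (univ : Finset α))
    (η d : ℝ) : SimpleGraph α where
  Adj a b := G.Adj a b ∧ ∃ U ∈ P.parts, ∃ V ∈ P.parts, a ∈ U ∧ b ∈ V ∧ U ≠ V ∧
    G.IsUniform η U V ∧ d ≤ (G.edgeDensity U V : ℝ)
  symm := by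
    constructor
    rintro a b ⟨hG, U, hU, V, hV, ha, hb, hUV, hun, hd⟩
    exact ⟨hG.symm, V, hV, U, hU, hb, ha, hUV.symm, hun.symm, by
      rw [SimpleGraph.edgeDensity_comm]; exact hd⟩
  loopless := by
    constructor
    rintro a ⟨hG, _⟩
    exact hG.ne rfl

open Classical in
theorem red_loss [Nonempty α] (G : SimpleGraph α) [DecidableRel G.Adj]
    (P : Finpartition (univ : Finset α)) (hP : P.IsEquipartition) (η d e : ℝ) (hη : 0 < η)
    (hd : 0 < d) (he : 0 < e) (hPu : P.IsUniform G η) (hl : 4 / e ≤ #P.parts) :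
    (#(univ.filter fun p : α × α => G.Adj p.1 p.2 ∧ ¬ (red G P η d).Adj p.1 p.2) : ℝ) ≤
      (4 * η + e / 2 + 4 * d) * (Fintype.card α : ℝ) ^ 2 := by
  let A := (P.nonUniforms G η).biUnion fun (U, V) ↦ U ×ˢ V
  let B := P.parts.biUnion offDiag
  let C := (P.sparsePairs G d).biUnion fun (U, V) ↦ G.interedges U V
  have hcardU : (#(univ : Finset α) : ℝ) = Fintype.card α := by simp
  have hA : (#A : ℝ) ≤ 4 * η * (Fintype.card α : ℝ) ^ 2 := by
    have := (hP.sum_nonUniforms_lt (univ_nonempty) hη hPu).le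
    rw [hcardU] at this
    exact this
  have hB : (#B : ℝ) ≤ e / 2 * (Fintype.card α : ℝ) ^ 2 := by
    have := hP.card_biUnion_offDiag_le he hl
    rw [hcardU] at this
    exact this
  have hC : (#C : ℝ) ≤ 4 * d * (Fintype.card α : ℝ) ^ 2 := by
    have := hP.card_interedges_sparsePairs_le (G := G) (ε := d) hd.le
    rw [hcardU] at this
    exact this
  have hsub : (univ.filter fun p : α × α => G.Adj p.1 p.2 ∧ ¬ (red G P η d).Adj p.1 p.2) ⊆
      A ∪ B ∪ C := by
    rintro ⟨x, y⟩ hxy
    simp only [mem_filter, mem_univ, true_and] at hxy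
    obtain ⟨hG, hnH⟩ := hxy
    obtain ⟨U, hU, hxU⟩ := P.exists_mem (mem_univ x)
    obtain ⟨V, hV, hyV⟩ := P.exists_mem (mem_univ y)
    simp only [mem_union]
    by_cases hUV : U = V
    · left; right
      subst hUV
      simp only [B, mem_biUnion, mem_offDiag]
      exact ⟨U, hU, hxU, hyV, hG.ne⟩
    by_cases hun : G.IsUniform η U V
    swap
    · left; left
      simp only [A, mem_biUnion, Prod.exists, mem_product]
      exact ⟨U, V, (P.mk_mem_nonUniforms (G := G)).2 ⟨hU, hV, hUV, hun⟩, hxU, hyV⟩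
    by_cases hden : d ≤ (G.edgeDensity U V : ℝ)
    swap
    · right
      simp only [C, mem_biUnion, Prod.exists]
      refine ⟨U, V, (P.mk_mem_sparsePairs G U V d).2 ⟨hU, hV, hUV, not_le.1 hden⟩, ?_⟩
      rw [SimpleGraph.mem_interedges_iff]
      exact ⟨hxU, hyV, hG⟩
    exact absurd ⟨hG, U, hU, V, hV, hxU, hyV, hUV, hun, hden⟩ hnH
  calc _ ≤ (#(A ∪ B ∪ C) : ℝ) := by exact_mod_cast card_le_card hsub
    _ ≤ (#A : ℝ) + #B + #C := by
        have h3 := card_union_le (A ∪ B) C
        have h4 := card_union_le A B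
        have h6 : #(A ∪ B ∪ C) ≤ #A + #B + #C := by omega
        exact_mod_cast h6
    _ ≤ 4 * η * (Fintype.card α : ℝ) ^ 2 + e / 2 * (Fintype.card α : ℝ) ^ 2 +
        4 * d * (Fintype.card α : ℝ) ^ 2 := by
        linarith
    _ = _ := by ring

/-- ordered cliques are at most `q ^ q` times the cliques -/
theorem tup_le (G : SimpleGraph α) [DecidableRel G.Adj] (q : ℕ) (W : Fin q → Finset α) :
    #(tup G q W) ≤ q ^ q * #(G.cliqueFinset q) := by
  have h := card_le_mul_card_image (f := fun f : Fin q → α => univ.image f) (tup G q W) (q ^ q) ?_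
  · refine h.trans (Nat.mul_le_mul_left _ (card_le_card ?_))
    intro t ht
    obtain ⟨f, hf, rfl⟩ := mem_image.1 ht
    rw [mem_tup] at hf
    have hadj : ∀ i j, i ≠ j → G.Adj (f i) (f j) := by
      intro i j hij
      rcases lt_or_gt_of_ne hij with h | h
      · exact hf.2 i j h
      · exact (hf.2 j i h).symm
    have hinj : Function.Injective f := by
      intro i j hij
      by_contra hne
      exact (hadj i j hne).ne hij
    rw [SimpleGraph.mem_cliqueFinset_iff, SimpleGraph.isNClique_iff]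
    constructor
    · intro a ha b hb hab
      simp only [coe_image, coe_univ, Set.image_univ, Set.mem_range] at ha hb
      obtain ⟨i, rfl⟩ := ha
      obtain ⟨j, rfl⟩ := hb
      exact hadj i j (fun h => hab (by rw [h]))
    · rw [card_image_of_injective _ hinj, card_univ, Fintype.card_fin]
  · intro t ht
    obtain ⟨f, hf, rfl⟩ := mem_image.1 ht
    have hc : #(univ.image f) ≤ q := by
      have := card_image_le (s := (univ : Finset (Fin q))) (f := f)
      rwa [card_univ, Fintype.card_fin] at this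
    calc #{x ∈ tup G q W | univ.image x = univ.image f}
        ≤ #(Fintype.piFinset (fun _ : Fin q => univ.image f)) := by
          apply card_le_card
          intro g hg
          rw [mem_filter] at hg
          rw [Fintype.mem_piFinset]
          intro i
          rw [← hg.2]
          exact mem_image_of_mem _ (mem_univ _)
      _ = #(univ.image f) ^ q := by simp
      _ ≤ q ^ q := Nat.pow_le_pow_left hc q

end red

open Classical in
/-- **The clique removal lemma.** -/
theorem removal (q : ℕ) (γ : ℝ) (hγ : 0 < γ) :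
    ∃ δ : ℝ, 0 < δ ∧ ∀ (α : Type) [Fintype α] (G : SimpleGraph α),
      (#(G.cliqueFinset q) : ℝ) < δ * (Fintype.card α : ℝ) ^ q →
      ∃ H : SimpleGraph α, H ≤ G ∧ H.CliqueFree q ∧
        (#(univ.filter fun p : α × α => G.Adj p.1 p.2 ∧ ¬ H.Adj p.1 p.2) : ℝ) ≤
          γ * (Fintype.card α : ℝ) ^ 2 := by
  obtain ⟨e, he⟩ : ∃ e, e = min γ 1 := ⟨_, rfl⟩
  have he0 : 0 < e := by rw [he]; positivity
  have he1 : e ≤ 1 := by rw [he]; exact min_le_right _ _
  have heγ : e ≤ γ := by rw [he]; exact min_le_left _ _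
  obtain ⟨η₀, hη₀, c, hc, H0⟩ := count q (e / 16) 1 (by positivity) (by linarith) one_pos le_rfl
  obtain ⟨η, hη⟩ : ∃ η, η = min η₀ (e / 16) := ⟨_, rfl⟩
  have hη0 : 0 < η := by rw [hη]; positivity
  have hη1 : η ≤ η₀ := by rw [hη]; exact min_le_left _ _
  have hη2 : η ≤ e / 16 := by rw [hη]; exact min_le_right _ _
  obtain ⟨l, hl⟩ : ∃ l : ℕ, 4 / e ≤ l := exists_nat_ge _
  have hl1 : 0 < l := by
    have : (0 : ℝ) < l := lt_of_lt_of_le (by positivity) hl
    exact_mod_cast this
  obtain ⟨B, hB⟩ : ∃ B : ℕ, B = SzemerediRegularity.bound η l := ⟨_, rfl⟩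
  obtain ⟨n₀, hn₀⟩ : ∃ n₀ : ℕ, n₀ = max l B + 1 := ⟨_, rfl⟩
  have hlB : l ≤ B := by rw [hB]; exact SzemerediRegularity.le_bound _ _
  have hB0 : 0 < B := by omega
  have hBR : (0 : ℝ) < B := by exact_mod_cast hB0
  have hn₀0 : (0 : ℝ) < n₀ := by
    have : 0 < n₀ := by omega
    exact_mod_cast this
  refine ⟨min (c * (1 / (2 * B)) ^ q / ((q : ℝ) ^ q + 1)) ((1 / n₀) ^ q), by positivity, ?_⟩
  intro α _ G hG
  by_cases hn : Fintype.card α < n₀
  · refine ⟨G, le_rfl, ?_, ?_⟩
    · have h1 : (#(G.cliqueFinset q) : ℝ) < 1 := by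
        refine hG.trans_le ?_
        have hnR : (Fintype.card α : ℝ) ≤ n₀ := by exact_mod_cast hn.le
        calc _ ≤ (1 / (n₀ : ℝ)) ^ q * (Fintype.card α : ℝ) ^ q :=
              mul_le_mul_of_nonneg_right (min_le_right _ _) (by positivity)
          _ ≤ (1 / (n₀ : ℝ)) ^ q * (n₀ : ℝ) ^ q := by gcongr
          _ = 1 := by rw [← mul_pow, one_div_mul_cancel hn₀0.ne', one_pow]
      have h2 : #(G.cliqueFinset q) = 0 := by
        have : #(G.cliqueFinset q) < 1 := by exact_mod_cast h1
        omega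
      rw [card_eq_zero, SimpleGraph.cliqueFinset_eq_empty_iff] at h2
      exact h2
    · have h1 : (univ.filter fun p : α × α => G.Adj p.1 p.2 ∧ ¬ G.Adj p.1 p.2) = ∅ := by
        ext p
        simp
      rw [h1]
      simp only [card_empty, Nat.cast_zero]
      positivity
  push Not at hn
  have hn1 : l ≤ Fintype.card α := by omega
  have hn2 : B ≤ Fintype.card α := by omega
  have hn3 : 0 < Fintype.card α := by omega
  have : Nonempty α := Fintype.card_pos_iff.1 hn3
  obtain ⟨P, hP, hlP, hPb, hPu⟩ := szemeredi_regularity G hη0 (l := l) hn1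
  rw [← hB] at hPb
  refine ⟨red G P η (e / 16), fun a b h => h.1, ?_, ?_⟩
  swap
  · have hlP' : 4 / e ≤ (#P.parts : ℝ) := hl.trans (by exact_mod_cast hlP)
    have h1 := red_loss G P hP η (e / 16) e hη0 (by positivity) he0 hPu hlP'
    refine h1.trans ?_
    apply mul_le_mul_of_nonneg_right _ (by positivity)
    linarith
  -- a clique of the reduced graph gives many cliques
  intro t ht
  have hcl := ht.isClique
  have hcard := ht.card_eq
  obtain ⟨f, hf⟩ : ∃ f : Fin q → α, Function.Injective f ∧ ∀ i, f i ∈ t := by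
    have eqv := t.equivFinOfCardEq hcard
    exact ⟨fun i => (eqv.symm i : α), fun i j h => eqv.symm.injective (Subtype.ext h),
      fun i => (eqv.symm i).2⟩
  have hadj : ∀ i j, i ≠ j → (red G P η (e / 16)).Adj (f i) (f j) := fun i j hij =>
    hcl (hf.2 i) (hf.2 j) (fun h => hij (hf.1 h))
  have hpair : ∀ i j, i ≠ j → G.IsUniform η (P.part (f i)) (P.part (f j)) ∧
      e / 16 ≤ (G.edgeDensity (P.part (f i)) (P.part (f j)) : ℝ) := by
    intro i j hij
    obtain ⟨_, U, hU, V, hV, hiU, hjV, _, hun, hd⟩ := hadj i j hij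
    have h1 : P.part (f i) = U := P.part_eq_of_mem hU hiU
    have h2 : P.part (f j) = V := P.part_eq_of_mem hV hjV
    rw [h1, h2]
    exact ⟨hun, hd⟩
  have hpm : ∀ i, P.part (f i) ∈ P.parts := fun i => P.part_mem.2 (mem_univ _)
  have hcount := H0 η hη0 hη1 α G (fun i => P.part (f i)) (fun i => P.part (f i))
    (fun i => subset_rfl) (fun i => by rw [one_mul]) (fun i => P.nonempty_of_mem_parts (hpm i))
    (fun i j hij => (hpair i j hij).1) (fun i j hij => (hpair i j hij).2)
  have hsz : ∀ i, (Fintype.card α : ℝ) * (1 / (2 * B)) ≤ #(P.part (f i)) := by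
    intro i
    have h1 := hP.average_le_card_part (hpm i)
    rw [card_univ] at h1
    have hpos : 0 < #P.parts := card_pos.2 ⟨_, hpm i⟩
    have h2 : Fintype.card α / B ≤ #(P.part (f i)) :=
      (Nat.div_le_div_left hPb hpos).trans h1
    have h3 : Fintype.card α < B * (Fintype.card α / B + 1) := Nat.lt_mul_div_succ _ hB0
    have h4 : 1 ≤ Fintype.card α / B := (Nat.one_le_div_iff hB0).2 hn2
    have h5 : Fintype.card α ≤ 2 * B * #(P.part (f i)) := by nlinarith
    have h6 : (Fintype.card α : ℝ) ≤ 2 * B * #(P.part (f i)) := by exact_mod_cast h5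
    rw [mul_one_div, div_le_iff₀ (by positivity)]
    linarith
  have hprod : ((Fintype.card α : ℝ) * (1 / (2 * B))) ^ q ≤ ∏ i, (#(P.part (f i)) : ℝ) := by
    calc ((Fintype.card α : ℝ) * (1 / (2 * B))) ^ q
        = ∏ _i : Fin q, ((Fintype.card α : ℝ) * (1 / (2 * B))) := by simp
      _ ≤ _ := prod_le_prod (fun i _ => by positivity) (fun i _ => hsz i)
  have h1 : (#(tup G q (fun i => P.part (f i))) : ℝ) ≤ (q : ℝ) ^ q * #(G.cliqueFinset q) := by
    exact_mod_cast tup_le G q (fun i => P.part (f i))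
  have h2 : c * ((Fintype.card α : ℝ) * (1 / (2 * B))) ^ q ≤
      ((q : ℝ) ^ q + 1) * #(G.cliqueFinset q) := by
    have h3 := mul_le_mul_of_nonneg_left hprod hc.le
    have h4 : (0 : ℝ) ≤ #(G.cliqueFinset q) := Nat.cast_nonneg _
    nlinarith
  have h3 : c * (1 / (2 * (B : ℝ))) ^ q / ((q : ℝ) ^ q + 1) * (Fintype.card α : ℝ) ^ q ≤
      #(G.cliqueFinset q) := by
    rw [div_mul_eq_mul_div, div_le_iff₀ (by positivity)]
    rw [mul_pow] at h2
    linarith
  have h4 : (#(G.cliqueFinset q) : ℝ) <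
      c * (1 / (2 * (B : ℝ))) ^ q / ((q : ℝ) ^ q + 1) * (Fintype.card α : ℝ) ^ q :=
    hG.trans_le (mul_le_mul_of_nonneg_right (min_le_left _ _) (by positivity))
  linarith

end Pool.Agent.X286.Cr
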