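import Pool.Agent.X286.Cr.Red
import Pool.Agent.X286.Cr.Loss

/-!
# The same statements without decidability

`removal_ncard` is the clique removal lemma: few copies of `K_q` in a graph on at most `M` vertices
can be destroyed by deleting few edges.
-/

set_option autoImplicit false

namespace Pool.Agent.X286.Cr

open Finset

/-- The number of `s`-element vertex sets spanning a complete subgraph. -/
noncomputable def kc {V : Type} (s : ℕ) (G : SimpleGraph V) : ℕ :=
  {t : Finset V | G.IsNClique s t}.ncard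

theorem kc_eq {V : Type} [Fintype V] [DecidableEq V] (s : ℕ) (G : SimpleGraph V)
    [DecidableRel G.Adj] : kc s G = #(G.cliqueFinset s) := by
  unfold kc
  rw [← Set.ncard_coe_finset]
  congr 1
  ext t
  simp

theorem ncard_filter {α : Type} [Fintype α] (p : α → Prop) [DecidablePred p] :
    {x | p x}.ncard = #(univ.filter p) := by
  rw [← Set.ncard_coe_finset]
  congr 1
  ext t
  simp

open Classical in
theorem kc_low {V : Type} [Fintype V] (G : SimpleGraph V) (A : Finset V) (s : ℕ) :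
    kc s G ≤ kc s (G.comap (Subtype.val : {v // v ∈ A} → V)) + ∑ v ∈ Aᶜ, (G.degree v) ^ (s - 1) := by
  rw [kc_eq, kc_eq]
  convert low G A s

theorem kc_lost {α : Type} [Fintype α] (G H : SimpleGraph α) (s : ℕ) :
    kc (s + 2) G ≤ kc (s + 2) H +
      {p : α × α | G.Adj p.1 p.2 ∧ ¬ H.Adj p.1 p.2}.ncard * (Fintype.card α) ^ s := by
  classical
  rw [kc_eq, kc_eq, ncard_filter]
  convert lost G H s

theorem kc_comap {V : Type} [Finite V] (G : SimpleGraph V) (A : Finset V) (q : ℕ) :
    kc q (G.comap (Subtype.val : {v // v ∈ A} → V)) ≤ kc q G := by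
  classical
  cases nonempty_fintype V
  rw [kc_eq, kc_eq]
  convert comap_clique G A q

/-- a graph with `m` edges has at most `2 ^ m` copies of `K_s`, `s ≥ 2` -/
theorem kc_le_pow {V : Type} [Finite V] (s : ℕ) (hs : 2 ≤ s) (G : SimpleGraph V) :
    kc s G ≤ 2 ^ G.edgeSet.ncard := by
  classical
  cases nonempty_fintype V
  rw [kc_eq, Set.ncard_eq_toFinset_card' G.edgeSet]
  have h1 : #(G.cliqueFinset s) ≤ #(G.edgeSet.toFinset.powerset) := by
    apply card_le_card_of_injOn (fun t => G.edgeSet.toFinset.filter (fun e => ∀ v ∈ e, v ∈ t))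
    · intro t _
      rw [mem_coe, mem_powerset]
      exact filter_subset _ _
    · have key : ∀ t ∈ G.cliqueFinset s, ∀ t' : Finset V,
          G.edgeSet.toFinset.filter (fun e => ∀ v ∈ e, v ∈ t) =
            G.edgeSet.toFinset.filter (fun e => ∀ v ∈ e, v ∈ t') → t ⊆ t' := by
        intro t ht t' h v hv
        rw [SimpleGraph.mem_cliqueFinset_iff, SimpleGraph.isNClique_iff] at ht
        obtain ⟨w, hw, hwv⟩ : ∃ w ∈ t, w ≠ v := by
          apply exists_mem_ne
          omega
        have h2 : s(v, w) ∈ G.edgeSet.toFinset.filter (fun e => ∀ v ∈ e, v ∈ t) := by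
          rw [mem_filter, Set.mem_toFinset]
          refine ⟨ht.1 hv hw hwv.symm, ?_⟩
          intro u hu
          rw [Sym2.mem_iff] at hu
          rcases hu with rfl | rfl
          · exact hv
          · exact hw
        rw [h, mem_filter] at h2
        exact h2.2 v (Sym2.mem_mk_left _ _)
      intro t ht t' ht' h
      exact Subset.antisymm (key t ht t' h) (key t' ht' t h.symm)
  rwa [card_powerset] at h1

theorem kc_addE {V : Type} [Finite V] (H : SimpleGraph V) (k s : ℕ) : kc s H ≤ kc s (addE H k) := by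
  classical
  cases nonempty_fintype V
  rw [kc_eq, kc_eq]
  apply card_le_card_of_injOn (fun t => t.map ⟨Sum.inl, Sum.inl_injective⟩)
  · intro t ht
    rw [mem_coe, SimpleGraph.mem_cliqueFinset_iff, SimpleGraph.isNClique_iff] at ht
    obtain ⟨hcl, hc⟩ := ht
    rw [mem_coe, SimpleGraph.mem_cliqueFinset_iff, SimpleGraph.isNClique_iff]
    constructor
    · intro a ha b hb hab
      rw [mem_coe, mem_map] at ha hb
      obtain ⟨a, ha, rfl⟩ := ha
      obtain ⟨b, hb, rfl⟩ := hb
      exact hcl ha hb (fun h => hab (by rw [h]))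
    · rw [card_map, hc]
  · intro t _ t' _ h
    exact map_injective _ h

/-- **The clique removal lemma**, with a bound `M` for the number of vertices. -/
theorem removal_ncard (q : ℕ) (hq : 2 ≤ q) (γ : ℝ) (hγ : 0 < γ) :
    ∃ δ : ℝ, 0 < δ ∧ ∀ (α : Type) [Fintype α] (G : SimpleGraph α) (M : ℝ),
      (Fintype.card α : ℝ) ≤ M → (kc q G : ℝ) < δ * M ^ q →
      ∃ H : SimpleGraph α, H ≤ G ∧ H.CliqueFree q ∧
        ({p : α × α | G.Adj p.1 p.2 ∧ ¬ H.Adj p.1 p.2}.ncard : ℝ) ≤ γ * M ^ 2 := by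
  classical
  obtain ⟨δ, hδ, H0⟩ := removal q γ hγ
  obtain ⟨ρ, hρ, hρ2⟩ : ∃ ρ : ℝ, 0 < ρ ∧ ρ ^ 2 = γ := ⟨√γ, Real.sqrt_pos.2 hγ, Real.sq_sqrt hγ.le⟩
  refine ⟨δ * ρ ^ q, by positivity, ?_⟩
  intro α _ G M hM hG
  have hN0 : (0 : ℝ) ≤ Fintype.card α := Nat.cast_nonneg _
  have hM0 : 0 ≤ M := hN0.trans hM
  by_cases h : ρ * M ≤ Fintype.card α
  · have h1 : (kc q G : ℝ) < δ * (Fintype.card α : ℝ) ^ q := by
      refine hG.trans_le ?_
      calc δ * ρ ^ q * M ^ q = δ * (ρ * M) ^ q := by rw [mul_pow]; ring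
        _ ≤ δ * (Fintype.card α : ℝ) ^ q := by gcongr
    rw [kc_eq] at h1
    obtain ⟨H, hH1, hH2, hH3⟩ := H0 α G (by convert h1)
    refine ⟨H, hH1, hH2, ?_⟩
    rw [ncard_filter]
    refine le_trans ?_ (hH3.trans (b := γ * (Fintype.card α : ℝ) ^ 2) (by gcongr))
    apply le_of_eq
    congr!
  · push Not at h
    refine ⟨⊥, bot_le, SimpleGraph.cliqueFree_bot hq, ?_⟩
    rw [ncard_filter]
    calc _ ≤ (#(univ : Finset (α × α)) : ℝ) := by exact_mod_cast card_filter_le _ _
      _ = (Fintype.card α : ℝ) ^ 2 := by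
          rw [card_univ, Fintype.card_prod]; push_cast; ring
      _ ≤ (ρ * M) ^ 2 := by gcongr
      _ = γ * M ^ 2 := by rw [mul_pow, hρ2]

end Pool.Agent.X286.Cr
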